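import Mathlib

/-!
# Every entropy of a one-dimensional matrix shift is the entropy of a tree-shift of finite type
-/

namespace Pool.Agent.Results.MP_29bdbb_an.MatrixShiftEntropies

open Filter Topology Set

/-- The matrix shift `X_A` of a matrix `A` indexed by `α`. -/
def matrixShift {α : Type} (A : Matrix α α ℕ) : Set (ℤ → α) :=
  {x | ∀ i : ℤ, A (x i) (x (i + 1)) = 1}

/-- The words of length `n` occurring in elements of `X`. -/
def shiftWords {α : Type} (X : Set (ℤ → α)) (n : ℕ) : Set (Fin n → α) :=
  {u | ∃ x ∈ X, ∃ i : ℤ, ∀ j : Fin n, u j = x (i + (j : ℕ))}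

/-- The topological entropy of `X` exists and equals `h`. -/
def HasShiftEntropy {α : Type} (X : Set (ℤ → α)) (h : ℝ) : Prop :=
  Tendsto (fun n : ℕ => Real.log (Nat.card (shiftWords X n)) / n) atTop (𝓝 h)

/-- The set `Δ_n` of words over `{0,…,d-1}` of length at most `n - 1` (for `n ≥ 1`). -/
def Delta (d n : ℕ) : Set (List (Fin d)) := {w | w.length < n}

/-- An `n`-block with labels in `L`: a map `Δ_n → L`. -/
abbrev Block (d : ℕ) (L : Type) (n : ℕ) : Type := Delta d n → L

/-- The `n`-block of the labelled tree `t` at the node `v`. -/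
def blockAt {d : ℕ} {L : Type} (t : List (Fin d) → L) (v : List (Fin d)) (n : ℕ) :
    Block d L n := fun w => t (v ++ w.1)

/-- The tree-shift `X_F` of a set `F` of blocks (of any sizes). -/
def treeShift {d : ℕ} {L : Type} (F : Set (Σ n : ℕ, Block d L n)) :
    Set (List (Fin d) → L) :=
  {t | ∀ v : List (Fin d), ∀ b ∈ F, blockAt t v b.1 ≠ b.2}

/-- The set `B_n(X)` of `n`-blocks occurring in elements of `X`. -/
def blocks {d : ℕ} {L : Type} (X : Set (List (Fin d) → L)) (n : ℕ) : Set (Block d L n) :=
  {b | ∃ t ∈ X, ∃ v : List (Fin d), blockAt t v n = b}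

/-- The tree-shift entropy `lim ln ln |B_n(X)| / n` exists and equals `h`. -/
def HasTreeEntropy {d : ℕ} {L : Type} (X : Set (List (Fin d) → L)) (h : ℝ) : Prop :=
  (∀ᶠ n : ℕ in atTop, 1 < Nat.card (blocks X n)) ∧
    Tendsto (fun n : ℕ => Real.log (Real.log (Nat.card (blocks X n))) / n) atTop (𝓝 h)

/-! ### The construction -/

section Construction

variable {S : Type} [Fintype S] (R : S → S → Prop)

/-- The number of children. -/
abbrev dd (S : Type) [Fintype S] : ℕ := Fintype.card S + 2

/-- The index of the child reserved for the state `a`. -/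
noncomputable def e (a : S) : Fin (dd S) := Fin.castAdd 2 (Fintype.equivFin S a)

lemma e_inj : Function.Injective (e (S := S)) := by
  intro a b h
  have : Fintype.equivFin S a = Fintype.equivFin S b := Fin.castAdd_injective _ _ h
  exact (Fintype.equivFin S).injective this

open Classical in
/-- The state of the child `i` of a node with state `s` (`none` means dead). -/
noncomputable def next (s : S) (i : Fin (dd S)) : Option S :=
  if h : ∃ a, e a = i ∧ R s a then some h.choose else none

lemma next_eq_some {s a : S} {i : Fin (dd S)} : next R s i = some a ↔ e a = i ∧ R s a := by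
  unfold next
  constructor
  · intro h
    split_ifs at h with h'
    have h1 := Option.some.inj h
    rw [← h1]
    exact h'.choose_spec
  · rintro ⟨h1, h2⟩
    have h' : ∃ a, e a = i ∧ R s a := ⟨a, h1, h2⟩
    rw [dif_pos h']
    congr 1
    apply e_inj
    rw [h'.choose_spec.1, h1]

/-- The state at the node `w` of the tree whose root has state `o`. -/
noncomputable def st (o : Option S) (w : List (Fin (dd S))) : Option S :=
  w.foldl (fun o i => o.bind fun a => next R a i) o

lemma st_nil (o : Option S) : st R o [] = o := rfl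

lemma st_snoc (o : Option S) (w : List (Fin (dd S))) (i : Fin (dd S)) :
    st R o (w ++ [i]) = (st R o w).bind fun a => next R a i := by
  simp [st, List.foldl_append]

lemma st_none (w : List (Fin (dd S))) : st R none w = none := by
  induction w using List.reverseRecOn with
  | nil => rfl
  | append_singleton w i ih => rw [st_snoc, ih]; rfl

/-- The labels: dead, or a state together with a free bit. -/
abbrev Lab (S : Type) : Type := Option (S × Bool)

/-- The local rule. -/
def Ok (p c : Lab S) (i : Fin (dd S)) : Prop :=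
  c.map Prod.fst = (p.map Prod.fst).bind fun a => next R a i

lemma nil_mem : ([] : List (Fin (dd S))) ∈ Delta (dd S) 2 := by simp [Delta]

lemma single_mem (i : Fin (dd S)) : [i] ∈ Delta (dd S) 2 := by simp [Delta]

/-- The forbidden blocks. -/
def Forb : Set (Σ n : ℕ, Block (dd S) (Lab S) n) :=
  (fun b : Block (dd S) (Lab S) 2 => (⟨2, b⟩ : Σ n : ℕ, Block (dd S) (Lab S) n)) ''
    {b | ∃ i : Fin (dd S), ¬ Ok R (b ⟨[], nil_mem⟩) (b ⟨[i], single_mem i⟩) i}

instance finite_Delta (d n : ℕ) : Finite (Delta d n) := by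
  have := List.finite_length_lt (Fin d) n
  exact this.to_subtype

lemma Forb_finite : (Forb R).Finite := by
  apply Set.Finite.image
  exact Set.toFinite _

lemma mem_treeShift_iff (t : List (Fin (dd S)) → Lab S) :
    t ∈ treeShift (Forb R) ↔ ∀ v i, Ok R (t v) (t (v ++ [i])) i := by
  constructor
  · intro h v i
    by_contra hc
    refine h v ⟨2, blockAt t v 2⟩ ⟨blockAt t v 2, ⟨i, ?_⟩, rfl⟩ rfl
    simpa [blockAt] using hc
  · rintro h v _ ⟨b, ⟨i, hi⟩, rfl⟩ hb
    apply hi
    have hb' : blockAt t v 2 = b := hb
    rw [← hb']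
    simpa [blockAt] using h v i

lemma state_eq {t : List (Fin (dd S)) → Lab S} (h : t ∈ treeShift (Forb R))
    (v w : List (Fin (dd S))) : (t (v ++ w)).map Prod.fst = st R ((t v).map Prod.fst) w := by
  rw [mem_treeShift_iff] at h
  induction w using List.reverseRecOn with
  | nil => simp [st_nil]
  | append_singleton w i ih =>
    rw [st_snoc, ← ih, ← List.append_assoc]
    exact h (v ++ w) i

/-- The tree with root state `o` and bits `b`. -/
noncomputable def tree (o : Option S) (b : List (Fin (dd S)) → Bool) :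
    List (Fin (dd S)) → Lab S := fun w => (st R o w).map fun a => (a, b w)

lemma map_fst_tree (o : Option S) (b : List (Fin (dd S)) → Bool) (w : List (Fin (dd S))) :
    (tree R o b w).map Prod.fst = st R o w := by
  unfold tree
  cases st R o w <;> rfl

lemma tree_mem (o : Option S) (b : List (Fin (dd S)) → Bool) :
    tree R o b ∈ treeShift (Forb R) := by
  rw [mem_treeShift_iff]
  intro v i
  unfold Ok
  rw [map_fst_tree, map_fst_tree, st_snoc]

/-- The nodes in `Δ_n` alive in the tree with root state `s`. -/
def Alive (s : S) (n : ℕ) : Set (List (Fin (dd S))) :=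
  {w | w.length < n ∧ ∃ a, st R (some s) w = some a}

instance finite_Alive (s : S) (n : ℕ) : Finite (Alive R s n) := by
  have h : (Alive R s n).Finite :=
    (List.finite_length_lt (Fin (dd S)) n).subset fun w hw => hw.1
  exact h.to_subtype

/-- Lower bound for the number of blocks. -/
lemma card_blocks_ge (s : S) (n : ℕ) :
    2 ^ Nat.card (Alive R s n) ≤ Nat.card (blocks (treeShift (Forb R)) n) := by
  classical
  have hc : Nat.card (Alive R s n → Bool) = 2 ^ Nat.card (Alive R s n) := by
    rw [Nat.card_fun, Nat.card_eq_fintype_card, Fintype.card_bool]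
  rw [← hc]
  let f : (Alive R s n → Bool) → blocks (treeShift (Forb R)) n := fun b =>
    ⟨blockAt (tree R (some s) fun w => if h : w ∈ Alive R s n then b ⟨w, h⟩ else false) [] n,
      _, tree_mem R _ _, [], rfl⟩
  apply Nat.card_le_card_of_injective f
  intro b b' hbb
  funext ⟨w, hw⟩
  have h1 := congrFun (congrArg Subtype.val hbb) ⟨w, hw.1⟩
  obtain ⟨a, ha⟩ := hw.2
  simp only [f, blockAt, List.nil_append, tree, ha, Option.map_some, Option.some.injEq,
    Prod.mk.injEq, true_and] at h1
  rw [dif_pos hw, dif_pos hw] at h1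
  exact h1

/-- Upper bound for the number of blocks. -/
lemma card_blocks_le (n : ℕ) (N : ℕ) (hN : ∀ s, Nat.card (Alive R s n) ≤ N) :
    Nat.card (blocks (treeShift (Forb R)) n) ≤ 1 + Fintype.card S * 2 ^ N := by
  classical
  let T : Type := Option (Σ s : S, (Alive R s n → Bool))
  have : ∀ s : S, Fintype (Alive R s n) := fun s => Fintype.ofFinite _
  have hT : Nat.card T ≤ 1 + Fintype.card S * 2 ^ N := by
    rw [Nat.card_eq_fintype_card, Fintype.card_option, Fintype.card_sigma, add_comm]
    gcongr
    calc ∑ s : S, Fintype.card (Alive R s n → Bool) ≤ ∑ _s : S, 2 ^ N := by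
          apply Finset.sum_le_sum
          intro s _
          rw [Fintype.card_fun, Fintype.card_bool]
          have := hN s
          rw [Nat.card_eq_fintype_card] at this
          gcongr
          norm_num
      _ = Fintype.card S * 2 ^ N := by simp
  refine le_trans ?_ hT
  let g : T → blocks (treeShift (Forb R)) n := fun x =>
    match x with
    | none => ⟨blockAt (tree R none fun _ => false) [] n, _, tree_mem R _ _, [], rfl⟩
    | some ⟨s, b⟩ =>
      ⟨blockAt (tree R (some s) fun w => if h : w ∈ Alive R s n then b ⟨w, h⟩ else false) [] n,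
        _, tree_mem R _ _, [], rfl⟩
  apply Nat.card_le_card_of_surjective g
  rintro ⟨_, t, ht, v, rfl⟩
  rcases hr : t v with _ | ⟨s, b0⟩
  · refine ⟨none, ?_⟩
    apply Subtype.ext
    funext w
    have h1 := state_eq R ht v w.1
    rw [hr] at h1
    simp only [Option.map_none, st_none] at h1
    simp only [g, blockAt, List.nil_append, tree, st_none, Option.map_none]
    exact (Option.map_eq_none_iff.1 h1).symm
  · refine ⟨some ⟨s, fun w => ((t (v ++ w.1)).map Prod.snd).getD false⟩, ?_⟩
    apply Subtype.ext
    funext w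
    have h1 := state_eq R ht v w.1
    rw [hr] at h1
    simp only [Option.map_some] at h1
    simp only [g, blockAt, List.nil_append, tree]
    rcases h2 : st R (some s) w.1 with _ | a
    · rw [h2] at h1
      exact (Option.map_eq_none_iff.1 h1).symm
    · have h3 : w.1 ∈ Alive R s n := ⟨w.2, a, h2⟩
      rw [dif_pos h3]
      rw [h2] at h1
      rcases h4 : t (v ++ w.1) with _ | ⟨a', b'⟩
      · rw [h4] at h1; simp at h1
      · rw [h4] at h1
        simp only [Option.map_some, Option.some.injEq] at h1
        simp [h1]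

/-- Paths with `n` vertices in the graph of `R`. -/
def Path (n : ℕ) : Set (Fin n → S) :=
  {u | ∀ (i : ℕ) (h : i + 1 < n), R (u ⟨i, by omega⟩) (u ⟨i + 1, h⟩)}

/-- The node word of a path. -/
noncomputable def code {n : ℕ} (u : Fin (n + 1) → S) : List (Fin (dd S)) :=
  List.ofFn fun j : Fin n => e (u j.succ)

lemma length_code {n : ℕ} (u : Fin (n + 1) → S) : (code u).length = n := by simp [code]

lemma st_code {n : ℕ} {u : Fin (n + 1) → S} (hu : u ∈ Path R (n + 1)) (k : ℕ) (hk : k < n + 1) :
    st R (some (u 0)) ((code u).take k) = some (u ⟨k, hk⟩) := by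
  induction k with
  | zero => simp [st_nil]
  | succ k ih =>
    have hk' : k < (code u).length := by rw [length_code]; omega
    rw [List.take_succ_eq_append_getElem hk', st_snoc, ih (by omega)]
    simp only [Option.bind_some]
    rw [next_eq_some]
    refine ⟨?_, hu k hk⟩
    simp [code]

lemma code_mem {n : ℕ} {u : Fin (n + 1) → S} (hu : u ∈ Path R (n + 1)) :
    code u ∈ Alive R (u 0) (n + 1) := by
  refine ⟨by rw [length_code]; omega, u ⟨n, by omega⟩, ?_⟩
  have := st_code R hu n (by omega)
  rwa [List.take_of_length_le (by rw [length_code])] at this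

lemma code_inj {n : ℕ} {u v : Fin (n + 1) → S} (h0 : u 0 = v 0) (h : code u = code v) :
    u = v := by
  have h1 := List.ofFn_injective h
  funext j
  refine Fin.cases h0 (fun k => ?_) j
  exact e_inj (congrFun h1 k)

lemma card_path_le (n : ℕ) [Nonempty S] :
    ∃ s : S, Nat.card (Path R (n + 1)) ≤ Fintype.card S * Nat.card (Alive R s (n + 1)) := by
  classical
  obtain ⟨s, hs⟩ := Finite.exists_max fun s : S => Nat.card (Alive R s (n + 1))
  refine ⟨s, ?_⟩
  have h1 : Nat.card (Path R (n + 1)) ≤ Nat.card (Σ s : S, Alive R s (n + 1)) := by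
    let f : Path R (n + 1) → (Σ s : S, Alive R s (n + 1)) := fun u =>
      ⟨u.1 0, ⟨code u.1, code_mem R u.2⟩⟩
    apply Nat.card_le_card_of_injective f
    intro u v huv
    have := congrArg (fun p : Σ s : S, Alive R s (n + 1) => (p.1, (p.2.1 : List _))) huv
    simp only [f, Prod.mk.injEq] at this
    exact Subtype.ext (code_inj this.1 this.2)
  refine h1.trans ?_
  rw [Nat.card_sigma]
  calc _ ≤ ∑ _b : S, Nat.card (Alive R s (n + 1)) := Finset.sum_le_sum fun b _ => hs b
    _ = _ := by simp

/-- The run of states along a node word, continued by the choice function `c` where the word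
does not determine it. -/
noncomputable def run (c : S → S) (s : S) (w : List (Fin (dd S))) : ℕ → S
  | 0 => s
  | j + 1 => ((w[j]?).bind fun i => next R (run c s w j) i).getD (c (run c s w j))

lemma run_rel {c : S → S} (hc : ∀ s, R s (c s)) (s : S) (w : List (Fin (dd S))) (j : ℕ) :
    R (run R c s w j) (run R c s w (j + 1)) := by
  rw [run]
  rcases h : (w[j]?).bind fun i => next R (run R c s w j) i with _ | a
  · exact hc _
  · simp only [Option.getD_some]
    rcases h' : w[j]? with _ | i
    · rw [h'] at h; simp at h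
    · rw [h'] at h
      exact ((next_eq_some R).1 h).2

lemma st_take_ne_none {s : S} {w : List (Fin (dd S))} (h : ∃ a, st R (some s) w = some a)
    (j : ℕ) : ∃ a, st R (some s) (w.take j) = some a := by
  obtain ⟨a, ha⟩ := h
  rcases h' : st R (some s) (w.take j) with _ | b
  · exfalso
    rw [← List.take_append_drop j w, st, List.foldl_append] at ha
    change st R (st R (some s) (w.take j)) (w.drop j) = some a at ha
    rw [h', st_none] at ha
    exact absurd ha (by simp)
  · exact ⟨b, rfl⟩

lemma st_run (c : S → S) {s : S} {w : List (Fin (dd S))} (h : ∃ a, st R (some s) w = some a)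
    (j : ℕ) (hj : j ≤ w.length) : st R (some s) (w.take j) = some (run R c s w j) := by
  induction j with
  | zero => simp [st_nil, run]
  | succ j ih =>
    have hj' : j < w.length := hj
    obtain ⟨a, ha⟩ := st_take_ne_none R h (j + 1)
    rw [ha]
    rw [List.take_succ_eq_append_getElem hj', st_snoc, ih hj'.le, Option.bind_some] at ha
    rw [run, List.getElem?_eq_getElem hj', Option.bind_some, ha, Option.getD_some]

lemma e_run (c : S → S) {s : S} {w : List (Fin (dd S))} (h : ∃ a, st R (some s) w = some a)
    (j : ℕ) (hj : j < w.length) : e (run R c s w (j + 1)) = w[j] := by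
  have h1 := st_run R c h (j + 1) hj
  rw [List.take_succ_eq_append_getElem hj, st_snoc, st_run R c h j hj.le, Option.bind_some]
    at h1
  exact ((next_eq_some R).1 h1).1

lemma card_Alive_le (hR : ∀ s, ∃ a, R s a) (s : S) (n : ℕ) :
    Nat.card (Alive R s (n + 1)) ≤ (n + 1) * Nat.card (Path R (n + 1)) := by
  choose c hc using hR
  let f : Alive R s (n + 1) → Fin (n + 1) × Path R (n + 1) := fun w =>
    (⟨w.1.length, w.2.1⟩, ⟨fun j => run R c s w.1 j, fun i _ => run_rel R hc s w.1 i⟩)
  have hf : Function.Injective f := by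
    rintro ⟨w, hw⟩ ⟨w', hw'⟩ h
    simp only [f, Prod.mk.injEq, Fin.mk.injEq] at h
    have h2 := congrArg Subtype.val h.2
    apply Subtype.ext
    refine List.ext_getElem h.1 fun j hj hj' => ?_
    rw [← e_run R c hw.2 j hj, ← e_run R c hw'.2 j hj']
    have hw1 : w.length < n + 1 := hw.1
    have hj2 : j < w.length := hj
    have := congrFun h2 ⟨j + 1, by omega⟩
    simp only at this
    rw [this]
  have := Nat.card_le_card_of_injective f hf
  rwa [Nat.card_prod, show Nat.card (Fin (n + 1)) = n + 1 by simp] at this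

end Construction

/-! ### Real analysis -/

lemma log_div_tendsto_zero : Tendsto (fun n : ℕ => Real.log n / n) atTop (𝓝 0) := by
  have h := Real.isLittleO_log_id_atTop.tendsto_div_nhds_zero
  exact h.comp tendsto_natCast_atTop_atTop

lemma const_div_tendsto_zero (C : ℝ) : Tendsto (fun n : ℕ => C / n) atTop (𝓝 0) :=
  tendsto_const_div_atTop_nhds_zero_nat C

lemma analysis (a b c : ℕ → ℕ) (K : ℕ) (hK : 1 ≤ K) (h : ℝ)
    (hc : ∀ n, 1 ≤ n → 1 ≤ c n) (h1 : ∀ n, 1 ≤ n → c n ≤ K * a n)
    (h2 : ∀ n, 1 ≤ n → 2 ^ a n ≤ b n) (h3 : ∀ n, 1 ≤ n → b n ≤ 1 + K * 2 ^ (n * c n))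
    (hlim : Tendsto (fun n : ℕ => Real.log (c n) / n) atTop (𝓝 h)) :
    Tendsto (fun n : ℕ => Real.log (Real.log (b n)) / n) atTop (𝓝 h) := by
  have hl2 : 0 < Real.log 2 := Real.log_pos (by norm_num)
  have hKR : (1 : ℝ) ≤ K := by exact_mod_cast hK
  set C : ℝ := Real.log (K + 1) + Real.log 2 with hC
  have hCpos : 0 < C := by
    have : 0 ≤ Real.log (K + 1) := Real.log_nonneg (by linarith)
    linarith
  have lower : ∀ n : ℕ, 1 ≤ n →
      Real.log (Real.log 2 / K) / n + Real.log (c n) / n ≤ Real.log (Real.log (b n)) / n := by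
    intro n hn
    have hcn : (1 : ℝ) ≤ c n := by exact_mod_cast hc n hn
    have hn' : (0 : ℝ) < n := by exact_mod_cast hn
    rw [← add_div]
    apply div_le_div_of_nonneg_right _ hn'.le
    rw [← Real.log_mul (by positivity) (by positivity)]
    apply Real.log_le_log (by positivity)
    have e1 : (c n : ℝ) ≤ K * a n := by exact_mod_cast h1 n hn
    have e2 : (2 : ℝ) ^ a n ≤ b n := by exact_mod_cast h2 n hn
    have e3 : (a n : ℝ) * Real.log 2 ≤ Real.log (b n) := by
      rw [← Real.log_pow]
      exact Real.log_le_log (by positivity) e2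
    refine le_trans ?_ e3
    rw [div_mul_eq_mul_div, div_le_iff₀ (by positivity)]
    nlinarith
  have upper : ∀ n : ℕ, 1 ≤ n → Real.log (Real.log (b n)) / n ≤
      Real.log C / n + Real.log n / n + Real.log (c n) / n := by
    intro n hn
    have hcn : (1 : ℝ) ≤ c n := by exact_mod_cast hc n hn
    have hn' : (1 : ℝ) ≤ n := by exact_mod_cast hn
    have hn0 : (0 : ℝ) < n := by linarith
    rw [← add_div, ← add_div]
    apply div_le_div_of_nonneg_right _ hn0.le
    rw [← Real.log_mul (by positivity) (by positivity),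
      ← Real.log_mul (by positivity) (by positivity)]
    have ha : 1 ≤ a n := by
      by_contra h0
      have h0' : a n = 0 := by omega
      have := h1 n hn
      rw [h0'] at this
      have := hc n hn
      omega
    have hb2 : (2 : ℝ) ≤ b n := by
      have : 2 ^ 1 ≤ b n := le_trans (Nat.pow_le_pow_right (by norm_num) ha) (h2 n hn)
      exact_mod_cast this
    apply Real.log_le_log (Real.log_pos (by linarith))
    have e1 : (b n : ℝ) ≤ (K + 1) * 2 ^ (n * c n) := by
      have e0 : (b n : ℝ) ≤ 1 + K * 2 ^ (n * c n) := by exact_mod_cast h3 n hn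
      have : (1 : ℝ) ≤ 2 ^ (n * c n) := one_le_pow₀ (by norm_num)
      nlinarith
    have e2 : Real.log (b n) ≤ Real.log (K + 1) + (n * c n) * Real.log 2 := by
      refine le_trans (Real.log_le_log (by linarith) e1) ?_
      rw [Real.log_mul (by positivity) (by positivity), Real.log_pow]
      push_cast
      exact le_rfl
    refine e2.trans ?_
    have e3 : 0 ≤ Real.log (K + 1) := Real.log_nonneg (by linarith)
    have e4 : (1 : ℝ) ≤ n * c n := by nlinarith
    rw [hC]
    nlinarith
  refine tendsto_of_tendsto_of_tendsto_of_le_of_le' (g := fun n : ℕ =>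
      Real.log (Real.log 2 / K) / n + Real.log (c n) / n) (h := fun n : ℕ =>
      Real.log C / n + Real.log n / n + Real.log (c n) / n) ?_ ?_ ?_ ?_
  · simpa using (const_div_tendsto_zero (Real.log (Real.log 2 / K))).add hlim
  · simpa using ((const_div_tendsto_zero (Real.log C)).add log_div_tendsto_zero).add hlim
  · filter_upwards [eventually_ge_atTop 1] with n hn using lower n hn
  · filter_upwards [eventually_ge_atTop 1] with n hn using upper n hn

/-! ### Words of the matrix shift -/

section Words

variable {α : Type} [Finite α] (A : Matrix α α ℕ)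

/-- The symbols occurring in `X_A`. -/
abbrev Sym : Type := {a : α // ∃ x ∈ matrixShift A, ∃ i : ℤ, x i = a}

/-- The relation on occurring symbols. -/
def Rel (a b : Sym A) : Prop := A a.1 b.1 = 1

omit [Finite α] in
lemma Rel_succ (a : Sym A) : ∃ b : Sym A, Rel A a b := by
  obtain ⟨a, x, hx, i, rfl⟩ := a
  exact ⟨⟨x (i + 1), x, hx, i + 1, rfl⟩, hx i⟩

omit [Finite α] in
lemma glue_mem {n : ℕ} {u : Fin (n + 1) → Sym A} (hu : u ∈ Path (Rel A) (n + 1)) :
    (fun j => (u j).1) ∈ shiftWords (matrixShift A) (n + 1) := by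
  classical
  obtain ⟨x, hx, i0, hxi⟩ := (u 0).2
  obtain ⟨y, hy, i1, hyi⟩ := (u (Fin.last n)).2
  obtain ⟨z, z1, z2, z3⟩ : ∃ z : ℤ → α, (∀ k : ℤ, k < 0 → z k = x (i0 + k)) ∧
      (∀ (m : ℕ) (h : m < n + 1), z m = (u ⟨m, h⟩).1) ∧
      (∀ m : ℕ, n < m → z m = y (i1 + ((m : ℤ) - n))) := by
    refine ⟨fun k : ℤ => if k < 0 then x (i0 + k) else if h' : k.toNat < n + 1 then
        (u ⟨k.toNat, h'⟩).1 else y (i1 + (k - n)), ?_, ?_, ?_⟩
    · intro k hk; simp [hk]
    · intro m h
      have : ¬ ((m : ℤ) < 0) := by omega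
      simp [this, h]
    · intro m h
      have : ¬ ((m : ℤ) < 0) := by omega
      simp only [this, if_false, Int.toNat_natCast]
      rw [dif_neg (by omega)]
  refine ⟨z, ?_, 0, ?_⟩
  · intro k
    rcases lt_trichotomy k (-1) with hk | hk | hk
    · rw [z1 k (by omega), z1 (k + 1) (by omega)]
      have := hx (i0 + k)
      rwa [add_assoc] at this
    · subst hk
      have e0 : z (-1 + 1) = (u 0).1 := z2 0 (by omega)
      rw [e0, z1 (-1) (by omega)]
      have := hx (i0 + -1)
      rw [show i0 + -1 + 1 = i0 by ring, hxi] at this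
      exact this
    · obtain ⟨m, rfl⟩ := Int.eq_ofNat_of_zero_le (show 0 ≤ k by omega)
      have e2 : ((m : ℤ) + 1) = ((m + 1 : ℕ) : ℤ) := by push_cast; rfl
      rw [e2]
      rcases lt_trichotomy m n with h1 | h1 | h1
      · rw [z2 m (by omega), z2 (m + 1) (by omega)]
        exact hu m (by omega)
      · subst h1
        rw [z2 m (by omega), z3 (m + 1) (by omega)]
        have := hy i1
        rw [hyi] at this
        rw [show i1 + (((m + 1 : ℕ) : ℤ) - m) = i1 + 1 by push_cast; ring]
        exact this
      · rw [z3 m h1, z3 (m + 1) (by omega)]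
        have := hy (i1 + (m - n))
        rwa [show i1 + ((m : ℤ) - n) + 1 = i1 + (((m + 1 : ℕ) : ℤ) - n) by push_cast; ring]
          at this
  · intro j
    rw [zero_add]
    exact (z2 j.1 j.2).symm

omit [Finite α] in
lemma card_words (n : ℕ) :
    Nat.card (shiftWords (matrixShift A) (n + 1)) = Nat.card (Path (Rel A) (n + 1)) := by
  symm
  apply Nat.card_eq_of_bijective
    (fun u : Path (Rel A) (n + 1) =>
      (⟨fun j => (u.1 j).1, glue_mem A u.2⟩ : shiftWords (matrixShift A) (n + 1)))
  constructor
  · intro u v h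
    apply Subtype.ext
    funext j
    exact Subtype.ext (congrFun (congrArg Subtype.val h) j)
  · rintro ⟨u, x, hx, i, hu⟩
    refine ⟨⟨fun j => ⟨u j, x, hx, i + (j : ℕ), (hu j).symm⟩, ?_⟩, rfl⟩
    intro k hk
    show A (u _) (u _) = 1
    rw [hu, hu]
    have := hx (i + k)
    rw [add_assoc] at this
    exact_mod_cast this

lemma words_nonempty (h : (matrixShift A).Nonempty) (n : ℕ) :
    1 ≤ Nat.card (shiftWords (matrixShift A) n) := by
  obtain ⟨x, hx⟩ := h
  have : Nonempty (shiftWords (matrixShift A) n) := ⟨⟨fun j => x (0 + (j : ℕ)), x, hx, 0,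
    fun _ => rfl⟩⟩
  exact Nat.card_pos

lemma words_submul (m n : ℕ) :
    Nat.card (shiftWords (matrixShift A) (m + n)) ≤
      Nat.card (shiftWords (matrixShift A) m) * Nat.card (shiftWords (matrixShift A) n) := by
  rw [← Nat.card_prod]
  let f : shiftWords (matrixShift A) (m + n) →
      shiftWords (matrixShift A) m × shiftWords (matrixShift A) n := fun u =>
    (⟨fun j => u.1 (Fin.castAdd n j), by
      obtain ⟨u, x, hx, i, hu⟩ := u
      exact ⟨x, hx, i, fun j => hu _⟩⟩,
    ⟨fun j => u.1 (Fin.natAdd m j), by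
      obtain ⟨u, x, hx, i, hu⟩ := u
      refine ⟨x, hx, i + m, fun j => ?_⟩
      refine (hu (Fin.natAdd m j)).trans ?_
      congr 1
      simp
      ring⟩)
  apply Nat.card_le_card_of_injective f
  intro u v h
  simp only [f, Prod.mk.injEq, Subtype.mk.injEq] at h
  apply Subtype.ext
  funext j
  refine Fin.addCases (fun k => congrFun h.1 k) (fun k => congrFun h.2 k) j

lemma exists_entropy (h : (matrixShift A).Nonempty) :
    ∃ H : ℝ, HasShiftEntropy (matrixShift A) H := by
  set u : ℕ → ℝ := fun n => Real.log (Nat.card (shiftWords (matrixShift A) n)) with hu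
  have hsub : Subadditive u := by
    intro m n
    have h1 : (1 : ℝ) ≤ Nat.card (shiftWords (matrixShift A) m) := by
      exact_mod_cast words_nonempty A h m
    have h2 : (1 : ℝ) ≤ Nat.card (shiftWords (matrixShift A) n) := by
      exact_mod_cast words_nonempty A h n
    have h3 : (1 : ℝ) ≤ Nat.card (shiftWords (matrixShift A) (m + n)) := by
      exact_mod_cast words_nonempty A h (m + n)
    rw [hu]
    simp only
    rw [← Real.log_mul (by positivity) (by positivity)]
    apply Real.log_le_log (by positivity)
    exact_mod_cast words_submul A m n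
  have hbdd : BddBelow (Set.range fun n => u n / n) := by
    refine ⟨0, ?_⟩
    rintro _ ⟨n, rfl⟩
    apply div_nonneg _ (Nat.cast_nonneg n)
    apply Real.log_nonneg
    exact_mod_cast words_nonempty A h n
  exact ⟨hsub.lim, hsub.tendsto_lim hbdd⟩

end Words

/-- **Main theorem.** Let `A` be a square `0`-`1` matrix over a finite index set with
`X_A ≠ ∅`. Then the topological entropy `H` of `X_A` exists, and some tree-shift of finite type
has an entropy, equal to `H`. -/
theorem result (α : Type) [Finite α] (A : Matrix α α ℕ) (_hA : ∀ i j, A i j = 0 ∨ A i j = 1)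
    (hne : (matrixShift A).Nonempty) :
    ∃ H : ℝ, HasShiftEntropy (matrixShift A) H ∧
      ∃ (d : ℕ) (L : Type) (_ : Finite L) (F : Set (Σ n : ℕ, Block d L n)),
        2 ≤ d ∧ F.Finite ∧ (∀ b ∈ F, 1 ≤ b.1) ∧ (treeShift F).Nonempty ∧
          HasTreeEntropy (treeShift F) H := by
  classical
  obtain ⟨H, hH⟩ := exists_entropy A hne
  refine ⟨H, hH, ?_⟩
  have : Fintype (Sym A) := Fintype.ofFinite _
  have hS : Nonempty (Sym A) := by
    obtain ⟨x, hx⟩ := hne
    exact ⟨⟨x 0, x, hx, 0, rfl⟩⟩
  have hb := fun n => card_path_le (Rel A) n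
  choose s hs using hb
  have key : Tendsto (fun n : ℕ => Real.log (Real.log
      (Nat.card (blocks (treeShift (Forb (Rel A))) n))) / n) atTop (𝓝 H) := by
    refine analysis (fun n => Nat.card (Alive (Rel A) (s (n - 1)) n)) _
      (fun n => Nat.card (shiftWords (matrixShift A) n)) (Fintype.card (Sym A))
      Fintype.card_pos H ?_ ?_ ?_ ?_ hH
    · intro n _; exact words_nonempty A hne n
    · intro n hn
      obtain ⟨n, rfl⟩ := Nat.exists_eq_succ_of_ne_zero (by omega : n ≠ 0)
      rw [Nat.succ_eq_add_one, card_words, Nat.add_sub_cancel]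
      exact hs n
    · intro n hn
      exact card_blocks_ge (Rel A) _ n
    · intro n hn
      obtain ⟨n, rfl⟩ := Nat.exists_eq_succ_of_ne_zero (by omega : n ≠ 0)
      rw [Nat.succ_eq_add_one, card_words]
      exact card_blocks_le (Rel A) _ _ fun s => card_Alive_le (Rel A) (Rel_succ A) s n
  refine ⟨dd (Sym A), Lab (Sym A), inferInstance, Forb (Rel A), Nat.le_add_left 2 _, Forb_finite _, ?_, ?_,
    ?_, key⟩
  · rintro _ ⟨b, _, rfl⟩
    norm_num
  · exact ⟨_, tree_mem (Rel A) none fun _ => false⟩
  · filter_upwards [eventually_ge_atTop 1] with n hn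
    refine lt_of_lt_of_le ?_ (card_blocks_ge (Rel A) (Classical.arbitrary _) n)
    apply Nat.one_lt_two_pow
    have : Nonempty (Alive (Rel A) (Classical.arbitrary (Sym A)) n) :=
      ⟨⟨[], by simp; omega, _, st_nil _ _⟩⟩
    exact Nat.card_pos.ne'

end Pool.Agent.Results.MP_29bdbb_an.MatrixShiftEntropies
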